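import Pool.Agent.W2helper31.GP.Stm3

/-!
# Project GP, piece KAPR (helper31): the expectation of `log |g|^2`
-/

set_option autoImplicit false

open MeasureTheory ProbabilityTheory Filter
open scoped ENNReal NNReal Topology

namespace Pool.Agent.W2helper15.GP

open Pool.Agent.W2helper31.GP

theorem hasDerivAt_mom {a : ℝ} (ha : 0 < a) :
    HasDerivAt (fun s : ℝ => 2 ^ s * Real.Gamma (a + s) / Real.Gamma a) (Real.log 2 + dg a) 0 := by
  have hG : Real.Gamma a ≠ 0 := (Real.Gamma_pos_of_pos ha).ne'
  have h1 : HasDerivAt (fun s : ℝ => (2 : ℝ) ^ s) (Real.log 2) 0 := by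
    have := (hasDerivAt_id (0 : ℝ)).const_rpow (by norm_num : (0 : ℝ) < 2)
    simpa using this
  have h2 : HasDerivAt (fun s : ℝ => Real.Gamma (a + s)) (deriv Real.Gamma a) 0 := by
    have h3 : DifferentiableAt ℝ Real.Gamma (a + 0) := by
      refine Real.differentiableAt_Gamma fun m h => ?_
      have h4 : (0 : ℝ) ≤ m := Nat.cast_nonneg m
      linarith
    have h5 := h3.hasDerivAt.comp_const_add a 0
    simpa using h5
  have h4 := (h1.mul h2).div_const (Real.Gamma a)
  refine h4.congr_deriv ?_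
  unfold dg
  simp only [add_zero, Real.rpow_zero, one_mul]
  field_simp

/-- **KAPR** -/
theorem p_KAPR : P_KAPR := by
  classical
  intro hMARG hKAP hRMOM r hr
  haveI : IsProbabilityMeasure (Gam r) := by unfold Gam; infer_instance
  obtain ⟨i0⟩ : Nonempty (Fin r) := ⟨⟨0, hr⟩⟩
  -- the first coordinate
  have hmap : (Gam r).map (fun x : Fin r → ℝ => x i0) = gaussianReal 0 1 := by
    have h := hMARG.1 r (fun j => if j = i0 then 1 else 0) (by simp)
    have e : (fun x : Fin r → ℝ => ∑ j, (if j = i0 then (1 : ℝ) else 0) * x j) =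
        fun x => x i0 := by
      funext x
      simp
    rwa [e] at h
  have hmeas : Measurable (fun x : Fin r → ℝ => x i0) := measurable_pi_apply i0
  have hne : ∀ᵐ x ∂(Gam r), x i0 ≠ 0 := by
    have h1 : gaussianReal 0 1 {(0 : ℝ)} = 0 := by
      haveI := nullSingletonClass_gaussianReal (μ := 0) (v := 1) one_ne_zero
      exact measure_singleton 0
    rw [← hmap, Measure.map_apply hmeas (measurableSet_singleton 0)] at h1
    rw [ae_iff]
    refine measure_mono_null (fun x hx => ?_) h1
    simpa using hx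
  have hlog : Integrable (fun x : Fin r → ℝ => Real.log (x i0)) (Gam r) := by
    have h := hKAP.1
    rw [← hmap] at h
    exact h.comp_measurable hmeas
  have hN := hMARG.2 r
  have hNm : Measurable (fun x : Fin r → ℝ => ∑ j, x j ^ 2) :=
    Finset.measurable_sum _ fun j _ => (measurable_pi_apply j).pow_const 2
  have hsing : ∀ x : Fin r → ℝ, x i0 ^ 2 ≤ ∑ j, x j ^ 2 := fun x =>
    Finset.single_le_sum (f := fun j => x j ^ 2) (fun j _ => sq_nonneg _) (Finset.mem_univ i0)
  have hpos : ∀ᵐ x ∂(Gam r), 0 < ∑ j, x j ^ 2 := by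
    filter_upwards [hne] with x hx
    exact lt_of_lt_of_le (by positivity) (hsing x)
  have hI : Integrable (fun x : Fin r → ℝ => Real.log (∑ j, x j ^ 2)) (Gam r) := by
    refine Integrable.mono' ((hlog.norm.const_mul 2).add hN.1)
      (Real.measurable_log.comp hNm).aestronglyMeasurable ?_
    filter_upwards [hne, hpos] with x hx hp
    have h2 : Real.log (x i0 ^ 2) ≤ Real.log (∑ j, x j ^ 2) :=
      Real.log_le_log (by positivity) (hsing x)
    have h3 : Real.log (∑ j, x j ^ 2) ≤ ∑ j, x j ^ 2 := by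
      have := Real.log_le_sub_one_of_pos hp
      linarith
    rw [Real.log_pow] at h2
    push_cast at h2
    have h4 := neg_abs_le (Real.log (x i0))
    have h5 := abs_nonneg (Real.log (x i0))
    show |Real.log (∑ j, x j ^ 2)| ≤ 2 * |Real.log (x i0)| + ∑ j, x j ^ 2
    rw [abs_le]
    constructor
    · linarith
    · linarith
  refine ⟨hI, ?_⟩
  have hr2 : (0 : ℝ) < (r : ℝ) / 2 := by
    have : (0 : ℝ) < r := by exact_mod_cast hr
    positivity
  have hG : Real.Gamma ((r : ℝ) / 2) ≠ 0 := (Real.Gamma_pos_of_pos hr2).ne'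
  have hder := hasDerivAt_mom hr2
  rw [hasDerivAt_iff_tendsto_slope] at hder
  have hder' := hder.mono_left (nhdsWithin_mono (0 : ℝ) (t := {0}ᶜ) (s := Set.Ioi 0)
    (fun x hx => ne_of_gt hx))
  refine ge_of_tendsto hder' ?_
  filter_upwards [self_mem_nhdsWithin] with s hs
  have hs' : (0 : ℝ) < s := hs
  obtain ⟨hi, he⟩ := hRMOM r s hr hs'.le
  have h1 : ∫ x, (1 + s * Real.log (∑ j, x j ^ 2)) ∂(Gam r) ≤ ∫ x, (∑ j, x j ^ 2) ^ s ∂(Gam r) := by
    refine integral_mono_ae ((integrable_const 1).add (hI.const_mul s)) hi ?_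
    filter_upwards [hpos] with x hx
    rw [Real.rpow_def_of_pos hx]
    have := Real.add_one_le_exp (Real.log (∑ j, x j ^ 2) * s)
    linarith
  rw [integral_add (integrable_const 1) (hI.const_mul s), integral_const_mul, integral_const,
    he] at h1
  have h2 : ∫ x, Real.log (∑ j, x j ^ 2) ∂(Gam r) = kapr r := rfl
  rw [h2] at h1
  rw [slope_def_field, sub_zero, le_div_iff₀ hs']
  simp only [add_zero, Real.rpow_zero, one_mul]
  rw [div_self hG]
  simp only [probReal_univ, smul_eq_mul, mul_one] at h1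
  linarith

end Pool.Agent.W2helper15.GP
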